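import Pool.Agent.H32.RQ.Targets

/-!
# Row EXF: the expectation of a character over the quadratic forms
-/

set_option autoImplicit false

open Finset

namespace Pool.Agent.H1.RQ

open Pool.Agent.H32.RQ

/-- sums over functions of products -/
theorem sum_prod_pi {ι A R : Type} [Fintype ι] [DecidableEq ι] [Fintype A] [CommSemiring R]
    (g : ι → A → R) : ∑ f : ι → A, ∏ i, g i (f i) = ∏ i, ∑ a, g i a := by
  rw [Finset.prod_univ_sum, Fintype.piFinset_univ]

theorem e_sum {Q : ℕ} [NeZero Q] {ι : Type} (t : Finset ι) (f : ι → ZMod Q) :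
    (ZMod.stdAddChar (∑ i ∈ t, f i) : ℂ) = ∏ i ∈ t, ZMod.stdAddChar (f i) := by
  classical
  induction t using Finset.induction_on with
  | empty => simp
  | insert a t ha ih => rw [Finset.sum_insert ha, Finset.prod_insert ha, AddChar.map_add_eq_mul, ih]

theorem pf_EXF (hFJT : T_FJT) : T_EXF := by
  intro s Q J _ x y j k hJ hQ
  obtain ⟨h1, -⟩ := hFJT Q J hJ hQ
  obtain ⟨a, ha⟩ : ∃ a : Mon s → ZMod Q,
      a = fun p => j * ((nu x p : ℤ) : ZMod Q) + k * ((nu y p : ℤ) : ZMod Q) := ⟨_, rfl⟩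
  have hphase : ∀ f : Mon s → ZMod Q,
      j * qf f (fun i => (x i : ZMod Q)) + k * qf f (fun i => (y i : ZMod Q)) =
        ∑ p, a p * f p := by
    intro f
    unfold qf
    rw [Finset.mul_sum, Finset.mul_sum, ← Finset.sum_add_distrib]
    refine Finset.sum_congr rfl fun p _ => ?_
    rw [ha]
    simp only [nu]
    push_cast
    ring
  have hterm : ∀ f : Mon s → ZMod Q, ((∏ p, fj Q J (f p) : ℝ) : ℂ) *
      ZMod.stdAddChar (j * qf f (fun i => (x i : ZMod Q)) + k * qf f (fun i => (y i : ZMod Q))) =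
      ∏ p, ((fj Q J (f p) : ℝ) : ℂ) * ZMod.stdAddChar (a p * f p) := by
    intro f
    rw [hphase f, e_sum, Complex.ofReal_prod, ← Finset.prod_mul_distrib]
  rw [Finset.sum_congr rfl fun f _ => hterm f,
    sum_prod_pi fun (p : Mon s) (u : ZMod Q) =>
      ((fj Q J u : ℝ) : ℂ) * ZMod.stdAddChar (a p * u),
    Finset.prod_congr rfl fun p _ => h1 (a p), ← Complex.ofReal_prod, Finset.prod_mul_distrib,
    Finset.prod_const, Finset.card_univ]
  unfold rr
  rw [ha]

end Pool.Agent.H1.RQ
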