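import Pool.Agent.H32.RQ.Targets
import Pool.Agent.H1.RQ.EXF

/-!
# Row VAR: the second moment of the difference
-/

set_option autoImplicit false

open Finset

namespace Pool.Agent.H1.RQ

open Pool.Agent.H32.RQ

section

variable {Q : ℕ} [NeZero Q]

/-- orthogonality -/
theorem ind_eq (v : ZMod Q) : (if v = 0 then (1 : ℂ) else 0) =
    (Q : ℂ)⁻¹ * ∑ j : ZMod Q, ZMod.stdAddChar (j * v) := by
  have h := AddChar.sum_mulShift (R := ZMod Q) (R' := ℂ) (ψ := ZMod.stdAddChar) v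
    (ZMod.isPrimitive_stdAddChar Q)
  rw [h, ZMod.card]
  have hQ : (Q : ℂ) ≠ 0 := by exact_mod_cast NeZero.ne Q
  split_ifs
  · field_simp
  · simp

/-- the Fourier expansion of the difference, for one vector -/
theorem diff_eq (κ l : ZMod Q → ℝ) (hl : ∀ v : ZMod Q,
    (l v : ℂ) = (Q : ℂ)⁻¹ * ∑ j : ZMod Q, (κ j : ℂ) * ZMod.stdAddChar (j * v))
    (v : Fin 2 → ZMod Q) :
    (((if ∀ i, v i = 0 then 1 else 0) - ∏ i, l (v i) : ℝ) : ℂ) =
      ((Q : ℂ)⁻¹) ^ 2 * ∑ j : Fin 2 → ZMod Q, ((1 - ∏ i, κ (j i) : ℝ) : ℂ) *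
        ∏ i, ZMod.stdAddChar (j i * v i) := by
  have h1 : (if ∀ i, v i = 0 then (1 : ℂ) else 0) =
      ((Q : ℂ)⁻¹) ^ 2 * ∑ j : Fin 2 → ZMod Q, ∏ i, ZMod.stdAddChar (j i * v i) := by
    have h2 : (if ∀ i, v i = 0 then (1 : ℂ) else 0) = ∏ i, (if v i = 0 then (1 : ℂ) else 0) := by
      rw [Finset.prod_ite_zero]
      simp
    rw [h2, Finset.prod_congr rfl fun i _ => ind_eq (v i), Finset.prod_mul_distrib,
      Finset.prod_const, Finset.card_univ, Fintype.card_fin,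
      sum_prod_pi fun (i : Fin 2) (a : ZMod Q) => (ZMod.stdAddChar (a * v i) : ℂ)]
  have h3 : ((∏ i, l (v i) : ℝ) : ℂ) = ((Q : ℂ)⁻¹) ^ 2 * ∑ j : Fin 2 → ZMod Q,
      (∏ i, (κ (j i) : ℂ)) * ∏ i, ZMod.stdAddChar (j i * v i) := by
    rw [Complex.ofReal_prod, Finset.prod_congr rfl fun i _ => hl (v i), Finset.prod_mul_distrib,
      Finset.prod_const, Finset.card_univ, Fintype.card_fin,
      ← sum_prod_pi fun (i : Fin 2) (a : ZMod Q) => (κ a : ℂ) * ZMod.stdAddChar (a * v i)]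
    congr 1
    exact Finset.sum_congr rfl fun j _ => Finset.prod_mul_distrib
  have h4 : (((if ∀ i, v i = 0 then 1 else 0) - ∏ i, l (v i) : ℝ) : ℂ) =
      (if ∀ i, v i = 0 then (1 : ℂ) else 0) - ((∏ i, l (v i) : ℝ) : ℂ) := by
    split_ifs <;> push_cast <;> ring
  rw [h4, h1, h3, ← mul_sub, ← Finset.sum_sub_distrib]
  congr 1
  refine Finset.sum_congr rfl fun j _ => ?_
  push_cast
  ring

end

theorem pf_VAR (hEXF : T_EXF) (hKPB : T_KPB) (hKPL : T_KPL) (hFJB : T_FJB) : T_VAR := by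
  intro s Q J W T _ S hJ hQ hW hWQ hTQ hWT
  have hκ := (hKPB Q W T hW hWQ hTQ hWT).1
  have hl := hKPL Q W T hW hWQ hTQ hWT
  have htri := (hFJB Q J hJ).2.1
  have hrr : ∀ (x y : Fin s → ℤ) (j k : ZMod Q), 0 ≤ rr Q J x y j k := fun x y j k =>
    Finset.prod_nonneg fun p _ => (htri _).1
  have hQ0 : (0 : ℝ) < Q := by exact_mod_cast Nat.pos_of_ne_zero (NeZero.ne Q)
  obtain ⟨κ, hκd⟩ : ∃ κ : ZMod Q → ℝ, κ = kap Q W T := ⟨_, rfl⟩
  obtain ⟨l, hld⟩ : ∃ l : ZMod Q → ℝ, l = lam Q W T := ⟨_, rfl⟩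
  rw [← hκd] at hκ
  have hl' : ∀ v : ZMod Q,
      (l v : ℂ) = (Q : ℂ)⁻¹ * ∑ j : ZMod Q, (κ j : ℂ) * ZMod.stdAddChar (j * v) := by
    rw [hκd, hld]
    exact hl
  -- the difference for one vector
  obtain ⟨u, hu⟩ : ∃ u : (Fin s → ℤ) → (Fin 2 → Mon s → ZMod Q) → ℝ, u = fun x F =>
      (if ∀ i, qf (F i) (fun j => (x j : ZMod Q)) = 0 then 1 else 0) -
        ∏ i, l (qf (F i) (fun j => (x j : ZMod Q))) := ⟨_, rfl⟩
  have hdiff : ∀ F : Fin 2 → Mon s → ZMod Q, nn Q S F - nl Q W T S F = ∑ x ∈ S, u x F := by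
    intro F
    unfold nn nl
    rw [← Finset.sum_sub_distrib, hu, hld]
  -- the coefficients
  obtain ⟨C, hC⟩ : ∃ C : (Fin 2 → ZMod Q) → ℝ, C = fun j => 1 - ∏ i, κ (j i) := ⟨_, rfl⟩
  have hC1 : ∀ j, 0 ≤ C j := by
    intro j
    rw [hC]
    have := Finset.prod_le_one (s := Finset.univ) (f := fun i => κ (j i))
      (fun i _ => (hκ (j i)).1) (fun i _ => (hκ (j i)).2)
    simp only at this ⊢
    linarith
  have hC2 : ∀ j, C j ≤ 1 := by
    intro j
    rw [hC]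
    have := Finset.prod_nonneg (s := Finset.univ) (f := fun i => κ (j i))
      (fun i _ => (hκ (j i)).1)
    simp only at this ⊢
    linarith
  have hC3 : ∀ j, C j ≤ (1 - κ (j 0)) + (1 - κ (j 1)) := by
    intro j
    rw [hC]
    simp only [Fin.prod_univ_two]
    have h1 := hκ (j 0)
    have h2 := hκ (j 1)
    nlinarith
  -- the correlations
  have hcor : ∀ x y : Fin s → ℤ, ∑ F : Fin 2 → Mon s → ZMod Q, ww Q J F * (u x F * u y F) =
      ((Q : ℝ) / J) ^ (2 * md s) * ((Q : ℝ)⁻¹ ^ 4 *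
        ∑ j : Fin 2 → ZMod Q, ∑ k : Fin 2 → ZMod Q, C j * C k *
          ∏ i, rr Q J x y (j i) (k i)) := by
    intro x y
    have hxy : ∀ F : Fin 2 → Mon s → ZMod Q, ((ww Q J F * (u x F * u y F) : ℝ) : ℂ) =
        (Q : ℂ)⁻¹ ^ 4 * ∑ j : Fin 2 → ZMod Q, ∑ k : Fin 2 → ZMod Q, (C j : ℂ) * (C k : ℂ) *
          ∏ i, (((∏ p, fj Q J (F i p) : ℝ) : ℂ) *
            ZMod.stdAddChar (j i * qf (F i) (fun a => (x a : ZMod Q)) +
              k i * qf (F i) (fun a => (y a : ZMod Q)))) := by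
      intro F
      have e1 : ((u x F : ℝ) : ℂ) = ((Q : ℂ)⁻¹) ^ 2 * ∑ j : Fin 2 → ZMod Q, (C j : ℂ) *
          ∏ i, ZMod.stdAddChar (j i * qf (F i) (fun a => (x a : ZMod Q))) := by
        rw [hu, hC]
        exact diff_eq κ l hl' fun i => qf (F i) (fun a => (x a : ZMod Q))
      have e2 : ((u y F : ℝ) : ℂ) = ((Q : ℂ)⁻¹) ^ 2 * ∑ j : Fin 2 → ZMod Q, (C j : ℂ) *
          ∏ i, ZMod.stdAddChar (j i * qf (F i) (fun a => (y a : ZMod Q))) := by
        rw [hu, hC]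
        exact diff_eq κ l hl' fun i => qf (F i) (fun a => (y a : ZMod Q))
      rw [Complex.ofReal_mul, Complex.ofReal_mul, e1, e2]
      have e3 : ((ww Q J F : ℝ) : ℂ) = ∏ i, ((∏ p, fj Q J (F i p) : ℝ) : ℂ) := by
        unfold ww
        rw [Complex.ofReal_prod]
      rw [e3]
      have e4 : ∀ (a b c d e : ℂ), a * ((b ^ 2 * c) * (b ^ 2 * d)) = b ^ 4 * (a * (c * d)) := by
        intro a b c d e
        ring
      rw [e4 _ _ _ _ 0, Finset.sum_mul_sum, Finset.mul_sum]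
      congr 1
      refine Finset.sum_congr rfl fun j _ => ?_
      rw [Finset.mul_sum]
      refine Finset.sum_congr rfl fun k _ => ?_
      have e5 : ∀ i : Fin 2, (ZMod.stdAddChar (j i * qf (F i) (fun a => (x a : ZMod Q)) +
          k i * qf (F i) (fun a => (y a : ZMod Q))) : ℂ) =
          ZMod.stdAddChar (j i * qf (F i) (fun a => (x a : ZMod Q))) *
            ZMod.stdAddChar (k i * qf (F i) (fun a => (y a : ZMod Q))) := fun i =>
        AddChar.map_add_eq_mul _ _ _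
      rw [Finset.prod_congr rfl fun i _ => congrArg (fun z => ((∏ p, fj Q J (F i p) : ℝ) : ℂ) * z)
        (e5 i), Finset.prod_mul_distrib, Finset.prod_mul_distrib]
      ring
    have hsum : ((∑ F : Fin 2 → Mon s → ZMod Q, ww Q J F * (u x F * u y F) : ℝ) : ℂ) =
        ((((Q : ℝ) / J) ^ (2 * md s) * ((Q : ℝ)⁻¹ ^ 4 *
          ∑ j : Fin 2 → ZMod Q, ∑ k : Fin 2 → ZMod Q, C j * C k *
            ∏ i, rr Q J x y (j i) (k i)) : ℝ) : ℂ) := by
      rw [Complex.ofReal_sum, Finset.sum_congr rfl fun F _ => hxy F, ← Finset.mul_sum,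
        Finset.sum_comm]
      have e6 : ∀ j : Fin 2 → ZMod Q, ∑ F : Fin 2 → Mon s → ZMod Q, ∑ k : Fin 2 → ZMod Q,
          (C j : ℂ) * (C k : ℂ) * ∏ i, (((∏ p, fj Q J (F i p) : ℝ) : ℂ) *
            ZMod.stdAddChar (j i * qf (F i) (fun a => (x a : ZMod Q)) +
              k i * qf (F i) (fun a => (y a : ZMod Q)))) =
          ∑ k : Fin 2 → ZMod Q, (C j : ℂ) * (C k : ℂ) *
            ((((Q : ℝ) / J) ^ (2 * md s) * ∏ i, rr Q J x y (j i) (k i) : ℝ) : ℂ) := by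
        intro j
        rw [Finset.sum_comm]
        refine Finset.sum_congr rfl fun k _ => ?_
        rw [← Finset.mul_sum]
        congr 1
        rw [sum_prod_pi fun (i : Fin 2) (f : Mon s → ZMod Q) => ((∏ p, fj Q J (f p) : ℝ) : ℂ) *
            ZMod.stdAddChar (j i * qf f (fun a => (x a : ZMod Q)) +
              k i * qf f (fun a => (y a : ZMod Q))),
          Finset.prod_congr rfl fun i _ => hEXF s Q J x y (j i) (k i) hJ hQ,
          ← Complex.ofReal_prod, Finset.prod_mul_distrib, Finset.prod_const, Finset.card_univ,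
          Fintype.card_fin, ← pow_mul, mul_comm (md s) 2]
      rw [Finset.sum_congr rfl fun j _ => e6 j]
      push_cast
      rw [Finset.mul_sum, Finset.mul_sum, Finset.mul_sum]
      refine Finset.sum_congr rfl fun j _ => ?_
      rw [Finset.mul_sum, Finset.mul_sum, Finset.mul_sum]
      refine Finset.sum_congr rfl fun k _ => ?_
      ring
    exact_mod_cast hsum
  -- the bound of the correlations
  have hbound : ∀ x y : Fin s → ℤ, (Q : ℝ)⁻¹ ^ 4 * (∑ j : Fin 2 → ZMod Q,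
      ∑ k : Fin 2 → ZMod Q, C j * C k * ∏ i, rr Q J x y (j i) (k i)) ≤
      2 * pk Q J W T x y * pp Q J x y := by
    intro x y
    obtain ⟨R, hR⟩ : ∃ R : ZMod Q → ZMod Q → ℝ, R = rr Q J x y := ⟨_, rfl⟩
    have hR0 : ∀ a b, 0 ≤ R a b := by
      intro a b
      rw [hR]
      exact hrr x y a b
    have hfac : ∀ g : Fin 2 → ZMod Q → ZMod Q → ℝ, ∑ j : Fin 2 → ZMod Q,
        ∑ k : Fin 2 → ZMod Q, ∏ i, g i (j i) (k i) = ∏ i, ∑ a, ∑ b, g i a b := by
      intro g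
      rw [Finset.sum_congr rfl fun j _ => sum_prod_pi fun (i : Fin 2) (b : ZMod Q) => g i (j i) b,
        sum_prod_pi fun (i : Fin 2) (a : ZMod Q) => ∑ b, g i a b]
    have h1 : ∑ j : Fin 2 → ZMod Q, ∑ k : Fin 2 → ZMod Q, C j * C k * ∏ i, R (j i) (k i) ≤
        ∑ j : Fin 2 → ZMod Q, ∑ k : Fin 2 → ZMod Q,
          (((1 - κ (j 0)) * R (j 0) (k 0)) * R (j 1) (k 1) +
            R (j 0) (k 0) * ((1 - κ (j 1)) * R (j 1) (k 1))) := by
      refine Finset.sum_le_sum fun j _ => Finset.sum_le_sum fun k _ => ?_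
      rw [Fin.prod_univ_two]
      have e1 : C j * C k ≤ (1 - κ (j 0)) + (1 - κ (j 1)) := by
        calc C j * C k ≤ C j * 1 := mul_le_mul_of_nonneg_left (hC2 k) (hC1 j)
          _ = C j := mul_one _
          _ ≤ _ := hC3 j
      have e2 : 0 ≤ R (j 0) (k 0) * R (j 1) (k 1) := mul_nonneg (hR0 _ _) (hR0 _ _)
      calc C j * C k * (R (j 0) (k 0) * R (j 1) (k 1)) ≤
            ((1 - κ (j 0)) + (1 - κ (j 1))) * (R (j 0) (k 0) * R (j 1) (k 1)) :=
            mul_le_mul_of_nonneg_right e1 e2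
        _ = _ := by ring
    obtain ⟨g₁, hg₁⟩ : ∃ g₁ : Fin 2 → ZMod Q → ZMod Q → ℝ,
        g₁ = fun i a b => if i = 0 then (1 - κ a) * R a b else R a b := ⟨_, rfl⟩
    obtain ⟨g₂, hg₂⟩ : ∃ g₂ : Fin 2 → ZMod Q → ZMod Q → ℝ,
        g₂ = fun i a b => if i = 0 then R a b else (1 - κ a) * R a b := ⟨_, rfl⟩
    have h2 : ∑ j : Fin 2 → ZMod Q, ∑ k : Fin 2 → ZMod Q,
          (((1 - κ (j 0)) * R (j 0) (k 0)) * R (j 1) (k 1) +
            R (j 0) (k 0) * ((1 - κ (j 1)) * R (j 1) (k 1))) =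
        ∑ j : Fin 2 → ZMod Q, ∑ k : Fin 2 → ZMod Q, ∏ i, g₁ i (j i) (k i) +
          ∑ j : Fin 2 → ZMod Q, ∑ k : Fin 2 → ZMod Q, ∏ i, g₂ i (j i) (k i) := by
      rw [← Finset.sum_add_distrib]
      refine Finset.sum_congr rfl fun j _ => ?_
      rw [← Finset.sum_add_distrib]
      refine Finset.sum_congr rfl fun k _ => ?_
      rw [Fin.prod_univ_two, Fin.prod_univ_two, hg₁, hg₂]
      simp
    rw [hfac g₁, hfac g₂, Fin.prod_univ_two, Fin.prod_univ_two] at h2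
    have h3 : ∑ a, ∑ b, g₁ 0 a b = ∑ a, ∑ b, (1 - κ a) * R a b := by
      rw [hg₁]
      simp
    have h4 : ∑ a, ∑ b, g₁ 1 a b = ∑ a, ∑ b, R a b := by
      rw [hg₁]
      simp
    have h5 : ∑ a, ∑ b, g₂ 0 a b = ∑ a, ∑ b, R a b := by
      rw [hg₂]
      simp
    have h6 : ∑ a, ∑ b, g₂ 1 a b = ∑ a, ∑ b, (1 - κ a) * R a b := by
      rw [hg₂]
      simp
    rw [h3, h4, h5, h6] at h2
    have h7 : 2 * pk Q J W T x y * pp Q J x y = (Q : ℝ)⁻¹ ^ 4 *
        ((∑ a, ∑ b, (1 - κ a) * R a b) * (∑ a, ∑ b, R a b) +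
          (∑ a, ∑ b, R a b) * ∑ a, ∑ b, (1 - κ a) * R a b) := by
      unfold pk pp
      rw [hR, hκd]
      field_simp
      ring
    rw [h7, ← hR]
    refine mul_le_mul_of_nonneg_left ?_ (by positivity)
    rw [← h2]
    exact h1
  -- conclusion
  have hLHS : ∑ F : Fin 2 → Mon s → ZMod Q, ww Q J F * (nn Q S F - nl Q W T S F) ^ 2 =
      ∑ x ∈ S, ∑ y ∈ S, ∑ F : Fin 2 → Mon s → ZMod Q, ww Q J F * (u x F * u y F) := by
    have e1 : ∀ F : Fin 2 → Mon s → ZMod Q, ww Q J F * (nn Q S F - nl Q W T S F) ^ 2 =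
        ∑ x ∈ S, ∑ y ∈ S, ww Q J F * (u x F * u y F) := by
      intro F
      rw [hdiff F, sq, Finset.sum_mul_sum, Finset.mul_sum]
      refine Finset.sum_congr rfl fun x _ => ?_
      rw [Finset.mul_sum]
    rw [Finset.sum_congr rfl fun F _ => e1 F, Finset.sum_comm]
    refine Finset.sum_congr rfl fun x _ => ?_
    rw [Finset.sum_comm]
  rw [hLHS, Finset.mul_sum]
  refine Finset.sum_le_sum fun x _ => ?_
  rw [Finset.mul_sum]
  refine Finset.sum_le_sum fun y _ => ?_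
  rw [hcor x y]
  exact mul_le_mul_of_nonneg_left (hbound x y) (by positivity)

end Pool.Agent.H1.RQ
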